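import Mathlib

set_option autoImplicit false

/-! # Additive error in optimal stopping for components on trees

We prove that there is a constant (200) such that for every tree, and in fact for every connected
graph, on `n` vertices, no stopping algorithm has expected number of components larger than
`n/4 + 200`.

Idea: root the graph at `r` and give every vertex a parent (a neighbour nearer to `r`). The number
of components of the active set is at most one plus the number of active vertices with inactive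
parent. Split the non-root vertices by the parity of their distance to `r`; in each class `O` the
parents lie outside `O`. With `N` the number of vertices of `O` with inactive parent and `e` the
number of inactive ones among them, `N/m` and `e/(m(m-1))` are martingales (`m` = number of
inactive vertices), which dominates the reward `N - e` at any stopping time by a quantity at the
fixed time where `m = n/8`; its excess over `n|O|/(4(n-1))` is at most `5 (N - ρ e)^2 / N`, and the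
expectation of the latter is bounded because, given the positions of the vertices outside `O`,
`N - ρ e` is an (almost) centred hypergeometric sum with variance of order `N`. -/

namespace Pool.Agent.Results.MP_1fe8eb_co.TreeStopping

open Finset

/-! ### The model -/

variable {n : ℕ}

/-- The set of active vertices after `t` steps of the ordering `σ`; the vertex `σ i` is activated
at step `i + 1`. -/
def active (σ : Equiv.Perm (Fin n)) (t : ℕ) : Set (Fin n) := {v | ∃ i : Fin n, i.val < t ∧ σ i = v}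

/-- `CC(σ,t)`: the number of connected components of the subgraph of `G` induced by the vertices
which are active at time `t`. -/
noncomputable def CC (G : SimpleGraph (Fin n)) (σ : Equiv.Perm (Fin n)) (t : ℕ) : ℕ :=
  Nat.card (G.induce (active σ t)).ConnectedComponent

/-- A stopping algorithm (full information variant): a map from orderings to times in
`{1,...,n}` such that `σ(i) = τ(i)` for all `i ≤ time σ` implies `time τ = time σ`. -/
structure Algorithm (n : ℕ) where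
  time : Equiv.Perm (Fin n) → ℕ
  one_le : ∀ σ, 1 ≤ time σ
  le_n : ∀ σ, time σ ≤ n
  adapted : ∀ σ τ : Equiv.Perm (Fin n),
    (∀ i : Fin n, i.val < time σ → σ i = τ i) → time τ = time σ

/-- The score `CC_G(A)`: the expected number of components at the stopping time, over a uniformly
random ordering. -/
noncomputable def score (G : SimpleGraph (Fin n)) (A : Algorithm n) : ℝ :=
  (∑ σ : Equiv.Perm (Fin n), (CC G σ (A.time σ) : ℝ)) / (n.factorial : ℝ)

/-- Sanity check: for `1 ≤ t ≤ n` there is the blind algorithm that always stops at time `t`. -/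
def blind (n t : ℕ) (h1 : 1 ≤ t) (h2 : t ≤ n) : Algorithm n where
  time _ := t
  one_le _ := h1
  le_n _ := h2
  adapted _ _ _ := rfl

/-! ### Combinatorics of permutations -/

theorem two_trans {α : Type*} [DecidableEq α] (a b c d : α) (hab : a ≠ b) (hcd : c ≠ d) :
    ∃ π : Equiv.Perm α, π a = c ∧ π b = d ∧
      ∀ z, z ≠ a → z ≠ b → z ≠ c → z ≠ d → π z = z := by
  have h1 : Equiv.swap a c b ≠ c := by
    intro h
    have : Equiv.swap a c b = Equiv.swap a c a := by rw [h, Equiv.swap_apply_left]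
    exact hab ((Equiv.injective _ this).symm)
  refine ⟨Equiv.swap (Equiv.swap a c b) d * Equiv.swap a c, ?_, ?_, ?_⟩
  · rw [Equiv.Perm.mul_apply, Equiv.swap_apply_left, Equiv.swap_apply_of_ne_of_ne h1.symm hcd]
  · rw [Equiv.Perm.mul_apply, Equiv.swap_apply_left]
  · intro z ha hb hc hd
    rw [Equiv.Perm.mul_apply, Equiv.swap_apply_of_ne_of_ne ha hc]
    refine Equiv.swap_apply_of_ne_of_ne ?_ hd
    intro h
    by_cases hba : b = c
    · rw [hba, Equiv.swap_apply_right] at h; exact ha h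
    · rw [Equiv.swap_apply_of_ne_of_ne hab.symm hba] at h; exact hb h

/-- If all fibres of `F` over points of `T0` have the same size, then the number of points mapped
to a subset of `T0` is proportional to the size of the subset. -/
theorem fiber_prop {P Q : Type*} [DecidableEq Q] (Ω : Finset P) (F : P → Q)
    (T0 T T' : Finset Q) (hT : T ⊆ T0) (hT' : T' ⊆ T0)
    (hc : ∀ q ∈ T0, ∀ q' ∈ T0, (Ω.filter fun σ => F σ = q).card ≤
      (Ω.filter fun σ => F σ = q').card) :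
    T'.card * (Ω.filter fun σ => F σ ∈ T).card = T.card * (Ω.filter fun σ => F σ ∈ T').card := by
  have key : ∀ U : Finset Q, (Ω.filter fun σ => F σ ∈ U).card =
      ∑ q ∈ U, (Ω.filter fun σ => F σ = q).card := by
    intro U
    rw [Finset.card_eq_sum_card_fiberwise (s := Ω.filter fun σ => F σ ∈ U) (f := F) (t := U)
      (fun σ hσ => (Finset.mem_filter.1 (Finset.mem_coe.1 hσ)).2)]
    refine Finset.sum_congr rfl fun q hq => ?_
    congr 1
    ext σ
    simp only [Finset.mem_filter]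
    constructor
    · rintro ⟨⟨h1, _⟩, h2⟩; exact ⟨h1, h2⟩
    · rintro ⟨h1, h2⟩; exact ⟨⟨h1, h2 ▸ hq⟩, h2⟩
  rcases T0.eq_empty_or_nonempty with h0 | ⟨q0, h0⟩
  · rw [h0, Finset.subset_empty] at hT hT'
    rw [hT, hT']
  · have key2 : ∀ U : Finset Q, U ⊆ T0 → (Ω.filter fun σ => F σ ∈ U).card =
        U.card * (Ω.filter fun σ => F σ = q0).card := by
      intro U hU
      rw [key U, Finset.sum_const_nat]
      intro q hq
      exact le_antisymm (hc q (hU hq) q0 h0) (hc q0 h0 q (hU hq))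
    rw [key2 T hT, key2 T' hT']
    ring

/-- Indicator of the event that the vertex `v` is still inactive at time `s`. -/
noncomputable def x (s : ℕ) (σ : Equiv.Perm (Fin n)) (v : Fin n) : ℝ :=
  if s ≤ (σ⁻¹ v).val then 1 else 0

/-- Positions at least `s`. -/
def pos (n s : ℕ) : Finset (Fin n) := Finset.univ.filter fun i => s ≤ i.val

theorem mem_pos (s : ℕ) (i : Fin n) : i ∈ pos n s ↔ s ≤ i.val := by simp [pos]

theorem card_pos (s : ℕ) : (pos n s).card = n - s := by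
  have h : (Finset.univ.filter fun i : Fin n => i.val < s).card = min n s := by
    rcases le_total n s with h | h
    · rw [Finset.filter_true_of_mem (fun i _ => lt_of_lt_of_le i.isLt h), Finset.card_univ,
        Fintype.card_fin, min_eq_left h]
    · rw [min_eq_right h]
      have : (Finset.univ.filter fun i : Fin n => i.val < s) =
          (Finset.univ : Finset (Fin s)).map (Fin.castLEEmb h) := by
        ext i
        simp only [Finset.mem_filter, Finset.mem_univ, true_and, Finset.mem_map]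
        constructor
        · intro hi
          exact ⟨⟨i.val, hi⟩, rfl⟩
        · rintro ⟨j, rfl⟩
          exact j.isLt
      rw [this, Finset.card_map, Finset.card_univ, Fintype.card_fin]
  have h2 := Finset.card_filter_add_card_filter_not (s := (Finset.univ : Finset (Fin n)))
    (fun i : Fin n => i.val < s)
  rw [h, Finset.card_univ, Fintype.card_fin] at h2
  have h3 : (Finset.univ.filter fun i : Fin n => ¬ i.val < s) = pos n s := by
    ext i; simp [pos]
  rw [h3] at h2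
  omega

theorem pos_anti {s t : ℕ} (h : t ≤ s) : pos n s ⊆ pos n t := by
  intro i hi
  rw [mem_pos] at *
  omega

theorem x_eq (s : ℕ) (σ : Equiv.Perm (Fin n)) (v : Fin n) :
    x s σ v = if σ⁻¹ v ∈ pos n s then 1 else 0 := by
  unfold x
  simp only [mem_pos]

theorem x_mul_self (s : ℕ) (σ : Equiv.Perm (Fin n)) (v : Fin n) :
    x s σ v * x s σ v = x s σ v := by
  unfold x; split_ifs <;> simp

theorem x_nonneg (s : ℕ) (σ : Equiv.Perm (Fin n)) (v : Fin n) : 0 ≤ x s σ v := by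
  unfold x; split_ifs <;> simp

theorem x_le_one (s : ℕ) (σ : Equiv.Perm (Fin n)) (v : Fin n) : x s σ v ≤ 1 := by
  unfold x; split_ifs <;> simp

theorem x_anti {s t : ℕ} (h : t ≤ s) (σ : Equiv.Perm (Fin n)) (v : Fin n) :
    x s σ v ≤ x t σ v := by
  unfold x
  split_ifs with h1 h2
  · exact le_rfl
  · omega
  · exact zero_le_one
  · exact le_rfl

/-- A set of orderings is `t`-measurable if it is closed under permuting the positions `≥ t`. -/
def Meas (t : ℕ) (Ω : Finset (Equiv.Perm (Fin n))) : Prop :=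
  ∀ σ ∈ Ω, ∀ π : Equiv.Perm (Fin n), (∀ i : Fin n, i.val < t → π i = i) → σ * π ∈ Ω

theorem sum_x_one (t s s' : ℕ) (Ω : Finset (Equiv.Perm (Fin n))) (hΩ : Meas t Ω)
    (hs : t ≤ s) (hs' : t ≤ s') (v : Fin n) :
    ((n - s' : ℕ) : ℝ) * ∑ σ ∈ Ω, x s σ v = ((n - s : ℕ) : ℝ) * ∑ σ ∈ Ω, x s' σ v := by
  have h := fiber_prop Ω (fun σ : Equiv.Perm (Fin n) => σ⁻¹ v) (pos n t) (pos n s) (pos n s')
    (pos_anti hs) (pos_anti hs') (by
      intro q hq q' hq'
      refine Finset.card_le_card_of_injOn (fun σ => σ * Equiv.swap q' q) ?_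
        (fun σ _ τ _ h => mul_right_cancel h)
      intro σ hσ
      simp only [Finset.coe_filter, Set.mem_ofPred_eq] at hσ ⊢
      rw [mem_pos] at hq hq'
      refine ⟨hΩ σ hσ.1 _ fun i hi => Equiv.swap_apply_of_ne_of_ne ?_ ?_, ?_⟩
      · rintro rfl; omega
      · rintro rfl; omega
      · rw [mul_inv_rev, Equiv.Perm.mul_apply, hσ.2, Equiv.swap_inv, Equiv.swap_apply_right])
  rw [card_pos, card_pos] at h
  have e : ∀ r : ℕ, ∑ σ ∈ Ω, x r σ v = ((Ω.filter fun σ => σ⁻¹ v ∈ pos n r).card : ℝ) := by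
    intro r
    simp only [x_eq]
    rw [Finset.sum_boole]
  rw [e, e]
  exact_mod_cast h

theorem sum_x_two (t s s' : ℕ) (Ω : Finset (Equiv.Perm (Fin n))) (hΩ : Meas t Ω)
    (hs : t ≤ s) (hs' : t ≤ s') (u v : Fin n) (huv : u ≠ v) :
    (((n - s') * (n - s' - 1) : ℕ) : ℝ) * ∑ σ ∈ Ω, x s σ u * x s σ v =
      (((n - s) * (n - s - 1) : ℕ) : ℝ) * ∑ σ ∈ Ω, x s' σ u * x s' σ v := by
  have h := fiber_prop Ω (fun σ : Equiv.Perm (Fin n) => (σ⁻¹ u, σ⁻¹ v)) (pos n t).offDiag
    (pos n s).offDiag (pos n s').offDiag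
    (Finset.offDiag_mono (pos_anti hs)) (Finset.offDiag_mono (pos_anti hs')) (by
      rintro ⟨i, j⟩ hq ⟨i', j'⟩ hq'
      simp only [Finset.mem_offDiag, mem_pos] at hq hq'
      obtain ⟨π, h1, h2, h3⟩ := two_trans i' j' i j hq'.2.2 hq.2.2
      refine Finset.card_le_card_of_injOn (fun σ => σ * π) ?_
        (fun σ _ τ _ h => mul_right_cancel h)
      intro σ hσ
      simp only [Finset.coe_filter, Set.mem_ofPred_eq, Prod.mk.injEq] at hσ ⊢
      refine ⟨hΩ σ hσ.1 _ fun k hk => h3 k ?_ ?_ ?_ ?_, ?_, ?_⟩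
      · rintro rfl; omega
      · rintro rfl; omega
      · rintro rfl; omega
      · rintro rfl; omega
      · rw [mul_inv_rev, Equiv.Perm.mul_apply, hσ.2.1, Equiv.Perm.inv_eq_iff_eq, h1]
      · rw [mul_inv_rev, Equiv.Perm.mul_apply, hσ.2.2, Equiv.Perm.inv_eq_iff_eq, h2])
  rw [Finset.offDiag_card, Finset.offDiag_card, card_pos, card_pos] at h
  have e : ∀ r : ℕ, ∑ σ ∈ Ω, x r σ u * x r σ v =
      ((Ω.filter fun σ => (σ⁻¹ u, σ⁻¹ v) ∈ (pos n r).offDiag).card : ℝ) := by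
    intro r
    rw [← Finset.sum_boole]
    refine Finset.sum_congr rfl fun σ _ => ?_
    have hne : σ⁻¹ u ≠ σ⁻¹ v := fun h => huv (Equiv.injective _ h)
    rw [x_eq, x_eq]
    generalize σ⁻¹ u = a at hne ⊢
    generalize σ⁻¹ v = b at hne ⊢
    simp only [Finset.mem_offDiag]
    by_cases h1 : a ∈ pos n r <;> by_cases h2 : b ∈ pos n r <;> simp [h1, h2, hne]
  rw [e, e]
  have e2 : ∀ r : ℕ, r * (r - 1) = r * r - r := by
    intro r; rw [Nat.mul_sub, mul_one]
  rw [e2, e2]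
  exact_mod_cast h


/-! ### Real inequalities -/

theorem ineq_early (nn a K N e m ρ : ℝ) (ha : 1 < a) (hn : 2 ≤ nn)
    (hρ : ρ = (nn - 1) / (a - 1))
    (hK : 9 / 16 * nn ^ 2 ≤ K * (a * (nn - 1))) (hN : 0 < N) (hm0 : 0 ≤ m) (hmn : m ≤ nn) :
    m / a * N - m * (m - 1) / (a * (a - 1)) * e ≤
      nn / 2 * ((N - ρ * e) / a) + nn ^ 2 / 4 * (e / (a * (a - 1))) +
        K * ((N - ρ * e) ^ 2 / N) := by
  have ha0 : a ≠ 0 := by linarith
  have ha1 : a - 1 ≠ 0 := by linarith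
  have hn1 : nn - 1 ≠ 0 := by linarith
  have hN0 : N ≠ 0 := hN.ne'
  obtain ⟨Z, hZ⟩ : ∃ Z, Z = N - ρ * e := ⟨_, rfl⟩
  have he : e = (N - Z) * (a - 1) / (nn - 1) := by
    rw [hZ, hρ]; field_simp; ring
  rw [← hZ, he]
  rw [← sub_nonneg]
  have key : nn / 2 * (Z / a) + nn ^ 2 / 4 * ((N - Z) * (a - 1) / (nn - 1) / (a * (a - 1))) +
        K * (Z ^ 2 / N) -
      (m / a * N - m * (m - 1) / (a * (a - 1)) * ((N - Z) * (a - 1) / (nn - 1))) =
      (K * (a * (nn - 1)) * Z ^ 2 - (m - nn / 2) * (nn - 1 + (m - nn / 2)) * Z * N +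
        (m - nn / 2) ^ 2 * N ^ 2) / (a * (nn - 1) * N) := by
    field_simp; ring
  rw [key]
  apply div_nonneg
  · have h1 : (nn - 1 + (m - nn / 2)) ^ 2 / 4 ≤ K * (a * (nn - 1)) := by
      refine le_trans ?_ hK
      nlinarith
    nlinarith [mul_le_mul_of_nonneg_right h1 (sq_nonneg Z),
      sq_nonneg ((nn - 1 + (m - nn / 2)) * Z / 2 - (m - nn / 2) * N)]
  · have : 0 < a * (nn - 1) * N := by
      apply mul_pos (mul_pos (by linarith) (by linarith)) hN
    exact this.le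

theorem ineq_late (nn a K N e ρ : ℝ) (ha : 1 < a) (hn : 2 ≤ nn) (han : a ≤ nn / 8)
    (hρ : ρ = (nn - 1) / (a - 1))
    (hK : 9 / 16 * nn ^ 2 ≤ K * (a * (nn - 1))) (hN : 0 < N) :
    N ≤ nn / 2 * ((N - ρ * e) / a) + nn ^ 2 / 4 * (e / (a * (a - 1))) +
        K * ((N - ρ * e) ^ 2 / N) := by
  have ha0 : a ≠ 0 := by linarith
  have ha1 : a - 1 ≠ 0 := by linarith
  have hn1 : nn - 1 ≠ 0 := by linarith
  have hN0 : N ≠ 0 := hN.ne'
  obtain ⟨Z, hZ⟩ : ∃ Z, Z = N - ρ * e := ⟨_, rfl⟩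
  have he : e = (N - Z) * (a - 1) / (nn - 1) := by
    rw [hZ, hρ]; field_simp; ring
  rw [← hZ, he]
  rw [← sub_nonneg]
  have key : nn / 2 * (Z / a) + nn ^ 2 / 4 * ((N - Z) * (a - 1) / (nn - 1) / (a * (a - 1))) +
        K * (Z ^ 2 / N) - N =
      (4 * (K * (a * (nn - 1))) * Z ^ 2 + nn * (nn - 2) * Z * N +
        (nn ^ 2 - 4 * a * (nn - 1)) * N ^ 2) / (4 * a * (nn - 1) * N) := by
    field_simp; ring
  rw [key]
  apply div_nonneg
  · have h1 : nn ^ 2 / 2 ≤ nn ^ 2 - 4 * a * (nn - 1) := by nlinarith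
    have h2 := mul_le_mul_of_nonneg_right hK (sq_nonneg Z)
    have h3 := mul_le_mul_of_nonneg_right h1 (sq_nonneg N)
    have h4 : 0 ≤ (nn * N + (nn - 2) * Z) ^ 2 := sq_nonneg _
    have h5 : 0 ≤ (9 / 4 * nn ^ 2 - (nn - 2) ^ 2 / 2) * Z ^ 2 := by
      apply mul_nonneg _ (sq_nonneg Z)
      nlinarith
    nlinarith
  · have : 0 < 4 * a * (nn - 1) * N := by
      apply mul_pos (mul_pos (by linarith) (by linarith)) hN
    exact this.le

/-! ### Star forests -/

section star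

variable (O : Finset (Fin n)) (p : Fin n → Fin n)

/-- Number of vertices of `O` whose parent is inactive at time `s`. -/
noncomputable def NN (s : ℕ) (σ : Equiv.Perm (Fin n)) : ℝ := ∑ w ∈ O, x s σ (p w)

/-- Number of vertices of `O` which are inactive at time `s` and have an inactive parent. -/
noncomputable def EE (s : ℕ) (σ : Equiv.Perm (Fin n)) : ℝ := ∑ w ∈ O, x s σ w * x s σ (p w)

/-- Number of vertices of `O` which are active at time `s` and have an inactive parent. -/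
noncomputable def YY (s : ℕ) (σ : Equiv.Perm (Fin n)) : ℝ :=
  ∑ w ∈ O, (1 - x s σ w) * x s σ (p w)

/-- Number of inactive vertices of `O` at time `s`. -/
noncomputable def KK (s : ℕ) (σ : Equiv.Perm (Fin n)) : ℝ := ∑ w ∈ O, x s σ w

theorem YY_eq (s : ℕ) (σ : Equiv.Perm (Fin n)) : YY O p s σ = NN O p s σ - EE O p s σ := by
  unfold YY NN EE
  rw [← Finset.sum_sub_distrib]
  exact Finset.sum_congr rfl fun w _ => by ring

theorem NN_nonneg (s : ℕ) (σ : Equiv.Perm (Fin n)) : 0 ≤ NN O p s σ :=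
  Finset.sum_nonneg fun _ _ => x_nonneg _ _ _

theorem NN_le (s : ℕ) (σ : Equiv.Perm (Fin n)) : NN O p s σ ≤ O.card := by
  unfold NN
  refine (Finset.sum_le_sum fun w _ => x_le_one s σ (p w)).trans ?_
  simp

theorem EE_nonneg (s : ℕ) (σ : Equiv.Perm (Fin n)) : 0 ≤ EE O p s σ :=
  Finset.sum_nonneg fun _ _ => mul_nonneg (x_nonneg _ _ _) (x_nonneg _ _ _)

theorem EE_le (s : ℕ) (σ : Equiv.Perm (Fin n)) : EE O p s σ ≤ NN O p s σ :=
  Finset.sum_le_sum fun w _ => by
    have := mul_le_mul_of_nonneg_right (x_le_one s σ w) (x_nonneg s σ (p w))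
    linarith

theorem YY_le (s : ℕ) (σ : Equiv.Perm (Fin n)) : YY O p s σ ≤ NN O p s σ := by
  rw [YY_eq]; linarith [EE_nonneg O p s σ]

theorem NN_anti {s t : ℕ} (h : t ≤ s) (σ : Equiv.Perm (Fin n)) : NN O p s σ ≤ NN O p t σ :=
  Finset.sum_le_sum fun _ _ => x_anti h _ _

theorem sum_NN (t s s' : ℕ) (Ω : Finset (Equiv.Perm (Fin n))) (hΩ : Meas t Ω)
    (hs : t ≤ s) (hs' : t ≤ s') :
    ((n - s' : ℕ) : ℝ) * ∑ σ ∈ Ω, NN O p s σ = ((n - s : ℕ) : ℝ) * ∑ σ ∈ Ω, NN O p s' σ := by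
  unfold NN
  rw [Finset.sum_comm, Finset.mul_sum, Finset.sum_comm (s := Ω), Finset.mul_sum]
  exact Finset.sum_congr rfl fun w _ => sum_x_one t s s' Ω hΩ hs hs' (p w)

theorem sum_EE (hp : ∀ w ∈ O, p w ∉ O) (t s s' : ℕ) (Ω : Finset (Equiv.Perm (Fin n)))
    (hΩ : Meas t Ω) (hs : t ≤ s) (hs' : t ≤ s') :
    (((n - s') * (n - s' - 1) : ℕ) : ℝ) * ∑ σ ∈ Ω, EE O p s σ =
      (((n - s) * (n - s - 1) : ℕ) : ℝ) * ∑ σ ∈ Ω, EE O p s' σ := by
  unfold EE
  rw [Finset.sum_comm, Finset.mul_sum, Finset.sum_comm (s := Ω), Finset.mul_sum]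
  exact Finset.sum_congr rfl fun w hw => sum_x_two t s s' Ω hΩ hs hs' w (p w)
    (fun h => hp w hw (h ▸ hw))

/-! #### Exchanging vertices -/

theorem x_vertex (s : ℕ) (σ π : Equiv.Perm (Fin n)) (v : Fin n) :
    x s (π⁻¹ * σ) v = x s σ (π v) := by
  unfold x
  rw [mul_inv_rev, inv_inv, Equiv.Perm.mul_apply]

/-- `h` depends only on the positions of the vertices outside `O`. -/
def Outside (h : Equiv.Perm (Fin n) → ℝ) : Prop :=
  ∀ π : Equiv.Perm (Fin n), (∀ z, z ∉ O → π z = z) → ∀ σ, h (π⁻¹ * σ) = h σ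

variable {O}

theorem sum_vertex_one (h : Equiv.Perm (Fin n) → ℝ) (hh : Outside O h) (s : ℕ) (u w : Fin n)
    (hu : u ∈ O) (hw : w ∈ O) : ∑ σ, h σ * x s σ w = ∑ σ, h σ * x s σ u := by
  have hπ : ∀ z, z ∉ O → Equiv.swap w u z = z := fun z hz =>
    Equiv.swap_apply_of_ne_of_ne (fun h => hz (h ▸ hw)) (fun h => hz (h ▸ hu))
  rw [← Equiv.sum_comp (Equiv.mulLeft (Equiv.swap w u)⁻¹) (fun σ => h σ * x s σ w)]
  refine Finset.sum_congr rfl fun σ _ => ?_
  rw [Equiv.coe_mulLeft, hh _ hπ, x_vertex, Equiv.swap_apply_left]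

theorem sum_vertex_two (h : Equiv.Perm (Fin n) → ℝ) (hh : Outside O h) (s : ℕ)
    (u u' w w' : Fin n) (hu : u ∈ O) (hu' : u' ∈ O) (hw : w ∈ O) (hw' : w' ∈ O)
    (hne : u ≠ u') (hne' : w ≠ w') :
    ∑ σ, h σ * (x s σ w * x s σ w') = ∑ σ, h σ * (x s σ u * x s σ u') := by
  obtain ⟨π, h1, h2, h3⟩ := two_trans w w' u u' hne' hne
  have hπ : ∀ z, z ∉ O → π z = z := fun z hz =>
    h3 z (fun h => hz (h ▸ hw)) (fun h => hz (h ▸ hw')) (fun h => hz (h ▸ hu))
      (fun h => hz (h ▸ hu'))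
  rw [← Equiv.sum_comp (Equiv.mulLeft π⁻¹) (fun σ => h σ * (x s σ w * x s σ w'))]
  refine Finset.sum_congr rfl fun σ _ => ?_
  rw [Equiv.coe_mulLeft, hh _ hπ, x_vertex, x_vertex, h1, h2]

theorem sum_vertex_one' (h : Equiv.Perm (Fin n) → ℝ) (hh : Outside O h) (s : ℕ) (w : Fin n)
    (hw : w ∈ O) : (O.card : ℝ) * ∑ σ, h σ * x s σ w = ∑ σ, h σ * KK O s σ := by
  unfold KK
  simp_rw [Finset.mul_sum]
  rw [Finset.sum_comm (s := Finset.univ) (t := O)]
  rw [Finset.sum_congr rfl (fun u hu => sum_vertex_one h hh s w u hw hu)]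
  rw [Finset.sum_const, nsmul_eq_mul, Finset.mul_sum]

theorem sum_vertex_two' (h : Equiv.Perm (Fin n) → ℝ) (hh : Outside O h) (s : ℕ) (w w' : Fin n)
    (hw : w ∈ O) (hw' : w' ∈ O) (hne : w ≠ w') :
    (O.card : ℝ) * (O.card - 1) * ∑ σ, h σ * (x s σ w * x s σ w') =
      ∑ σ, h σ * (KK O s σ ^ 2 - KK O s σ) := by
  obtain ⟨c, hc⟩ : ∃ c, c = ∑ σ, h σ * (x s σ w * x s σ w') := ⟨_, rfl⟩
  have h1 : ∀ σ : Equiv.Perm (Fin n), KK O s σ ^ 2 - KK O s σ =
      ∑ u ∈ O, ∑ u' ∈ O.erase u, x s σ u * x s σ u' := by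
    intro σ
    have h2 : ∀ u ∈ O, ∑ u' ∈ O.erase u, x s σ u * x s σ u' =
        x s σ u * KK O s σ - x s σ u := by
      intro u hu
      have h3 := Finset.add_sum_erase O (fun u' => x s σ u * x s σ u') hu
      rw [x_mul_self] at h3
      unfold KK
      rw [Finset.mul_sum]
      linarith
    rw [Finset.sum_congr rfl h2, Finset.sum_sub_distrib, ← Finset.sum_mul]
    unfold KK
    ring
  rw [← hc]
  simp_rw [h1, Finset.mul_sum]
  rw [Finset.sum_comm (s := Finset.univ) (t := O)]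
  have h4 : ∀ u ∈ O, ∑ σ, ∑ u' ∈ O.erase u, h σ * (x s σ u * x s σ u') =
      ((O.card : ℝ) - 1) * c := by
    intro u hu
    rw [Finset.sum_comm]
    rw [Finset.sum_congr rfl (fun u' hu' => sum_vertex_two h hh s w w' u u' hw hw' hu
      (Finset.mem_of_mem_erase hu') hne (Finset.ne_of_mem_erase hu').symm)]
    rw [Finset.sum_const, Finset.card_erase_of_mem hu, nsmul_eq_mul, ← hc,
      Nat.cast_sub (Finset.card_pos.2 ⟨u, hu⟩), Nat.cast_one]
  rw [Finset.sum_congr rfl h4, Finset.sum_const, nsmul_eq_mul]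
  ring

end star


section key

variable {O : Finset (Fin n)} {p : Fin n → Fin n}

theorem NN_outside (hp : ∀ w ∈ O, p w ∉ O) (s : ℕ) : Outside O (NN O p s) := by
  intro π hπ σ
  unfold NN
  exact Finset.sum_congr rfl fun w hw => by rw [x_vertex, hπ _ (hp w hw)]

theorem x_outside (hp : ∀ w ∈ O, p w ∉ O) (s : ℕ) (w : Fin n) (hw : w ∈ O) :
    Outside O (fun σ => x s σ (p w)) := by
  intro π hπ σ
  change x s (π⁻¹ * σ) (p w) = x s σ (p w)
  rw [x_vertex, hπ _ (hp w hw)]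

/-- The basic second moment estimate. -/
theorem key_bound (hp : ∀ w ∈ O, p w ∉ O) (s : ℕ) (ρ : ℝ) (hρ : 2 ≤ ρ) (hO : O.Nonempty) :
    ∑ σ, (NN O p s σ - ρ * EE O p s σ) ^ 2 / NN O p s σ ≤
      ∑ σ : Equiv.Perm (Fin n), ((O.card : ℝ) * (1 - ρ * KK O s σ / O.card) ^ 2 +
        (1 + (ρ ^ 2 - 2 * ρ) * KK O s σ / O.card)) := by
  have hl : (0 : ℝ) < O.card := by exact_mod_cast hO.card_pos
  have hl1 : (1 : ℝ) ≤ O.card := by exact_mod_cast hO.card_pos
  have hKle : ∀ σ : Equiv.Perm (Fin n), KK O s σ ≤ O.card := by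
    intro σ
    unfold KK
    refine (Finset.sum_le_sum fun w _ => x_le_one s σ w).trans ?_
    simp
  have hK0 : ∀ σ : Equiv.Perm (Fin n), 0 ≤ KK O s σ := fun σ =>
    Finset.sum_nonneg fun _ _ => x_nonneg _ _ _
  -- the individual terms
  have hT : ∀ w ∈ O, ∀ w' ∈ O, ∑ σ, (NN O p s σ)⁻¹ *
      (x s σ (p w) * (1 - ρ * x s σ w) * (x s σ (p w') * (1 - ρ * x s σ w'))) ≤
      ∑ σ, (NN O p s σ)⁻¹ * (x s σ (p w) * x s σ (p w')) * (1 - ρ * KK O s σ / O.card) ^ 2 +
      if w = w' then ∑ σ, (NN O p s σ)⁻¹ * x s σ (p w) *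
        (1 + (ρ ^ 2 - 2 * ρ) * KK O s σ / O.card) else 0 := by
    intro w hw w' hw'
    have hN : ∀ σ : Equiv.Perm (Fin n), 0 ≤ (NN O p s σ)⁻¹ := fun σ =>
      inv_nonneg.2 (NN_nonneg O p s σ)
    by_cases hww : w = w'
    · subst hww
      rw [if_pos rfl]
      have h1 : ∀ σ : Equiv.Perm (Fin n), (NN O p s σ)⁻¹ *
          (x s σ (p w) * (1 - ρ * x s σ w) * (x s σ (p w) * (1 - ρ * x s σ w))) =
          (NN O p s σ)⁻¹ * x s σ (p w) + (ρ ^ 2 - 2 * ρ) *
            (((NN O p s σ)⁻¹ * x s σ (p w)) * x s σ w) := by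
        intro σ
        have e1 := x_mul_self s σ (p w)
        have e2 := x_mul_self s σ w
        have : (x s σ (p w) * (1 - ρ * x s σ w) * (x s σ (p w) * (1 - ρ * x s σ w))) =
          (x s σ (p w) * x s σ (p w)) * (1 - 2 * ρ * x s σ w +
            ρ ^ 2 * (x s σ w * x s σ w)) := by ring
        rw [this, e1, e2]; ring
      have h2 : Outside O (fun σ => (NN O p s σ)⁻¹ * x s σ (p w)) := by
        intro π hπ σ
        simp only
        rw [NN_outside hp s π hπ σ, x_vertex, hπ _ (hp w hw)]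
      have h3 := sum_vertex_one' _ h2 s w hw
      have h4 : ∑ σ, (NN O p s σ)⁻¹ * x s σ (p w) * (1 + (ρ ^ 2 - 2 * ρ) * KK O s σ / O.card) =
          ∑ σ, (NN O p s σ)⁻¹ *
          (x s σ (p w) * (1 - ρ * x s σ w) * (x s σ (p w) * (1 - ρ * x s σ w))) := by
        rw [Finset.sum_congr rfl fun σ _ => h1 σ, Finset.sum_add_distrib, ← Finset.mul_sum]
        have h5 : ∀ σ : Equiv.Perm (Fin n), (NN O p s σ)⁻¹ * x s σ (p w) *
            (1 + (ρ ^ 2 - 2 * ρ) * KK O s σ / O.card) = (NN O p s σ)⁻¹ * x s σ (p w) +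
            (ρ ^ 2 - 2 * ρ) / O.card * (((NN O p s σ)⁻¹ * x s σ (p w)) * KK O s σ) := by
          intro σ; field_simp
        rw [Finset.sum_congr rfl fun σ _ => h5 σ, Finset.sum_add_distrib, ← Finset.mul_sum,
          ← h3]
        field_simp
      rw [h4]
      have : 0 ≤ ∑ σ, (NN O p s σ)⁻¹ * (x s σ (p w) * x s σ (p w)) *
          (1 - ρ * KK O s σ / O.card) ^ 2 :=
        Finset.sum_nonneg fun σ _ => mul_nonneg (mul_nonneg (hN σ)
          (mul_nonneg (x_nonneg _ _ _) (x_nonneg _ _ _))) (sq_nonneg _)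
      linarith
    · rw [if_neg hww, add_zero]
      have hcard : (2 : ℝ) ≤ O.card := by
        have : 1 < O.card := Finset.one_lt_card.2 ⟨w, hw, w', hw', hww⟩
        exact_mod_cast this
      have h2 : Outside O (fun σ => (NN O p s σ)⁻¹ * (x s σ (p w) * x s σ (p w'))) := by
        intro π hπ σ
        simp only
        rw [NN_outside hp s π hπ σ, x_vertex, hπ _ (hp w hw), x_vertex, hπ _ (hp w' hw')]
      have h3 := sum_vertex_one' _ h2 s w hw
      have h3' := sum_vertex_one' _ h2 s w' hw'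
      have h4 := sum_vertex_two' _ h2 s w w' hw hw' hww
      have h1 : ∀ σ : Equiv.Perm (Fin n), (NN O p s σ)⁻¹ *
          (x s σ (p w) * (1 - ρ * x s σ w) * (x s σ (p w') * (1 - ρ * x s σ w'))) =
          (NN O p s σ)⁻¹ * (x s σ (p w) * x s σ (p w'))
          - ρ * (((NN O p s σ)⁻¹ * (x s σ (p w) * x s σ (p w'))) * x s σ w)
          - ρ * (((NN O p s σ)⁻¹ * (x s σ (p w) * x s σ (p w'))) * x s σ w')
          + ρ ^ 2 * (((NN O p s σ)⁻¹ * (x s σ (p w) * x s σ (p w'))) *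
            (x s σ w * x s σ w')) := by
        intro σ; ring
      rw [Finset.sum_congr rfl fun σ _ => h1 σ, Finset.sum_add_distrib, Finset.sum_sub_distrib,
        Finset.sum_sub_distrib, ← Finset.mul_sum, ← Finset.mul_sum, ← Finset.mul_sum]
      have e3 : ∑ σ, (NN O p s σ)⁻¹ * (x s σ (p w) * x s σ (p w')) * x s σ w =
          (∑ σ, (NN O p s σ)⁻¹ * (x s σ (p w) * x s σ (p w')) * KK O s σ) / O.card := by
        rw [eq_div_iff hl.ne', mul_comm]; exact h3
      have e3' : ∑ σ, (NN O p s σ)⁻¹ * (x s σ (p w) * x s σ (p w')) * x s σ w' =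
          (∑ σ, (NN O p s σ)⁻¹ * (x s σ (p w) * x s σ (p w')) * KK O s σ) / O.card := by
        rw [eq_div_iff hl.ne', mul_comm]; exact h3'
      have hl2 : (0 : ℝ) < O.card * (O.card - 1) := mul_pos hl (by linarith)
      have e4 : ∑ σ, (NN O p s σ)⁻¹ * (x s σ (p w) * x s σ (p w')) * (x s σ w * x s σ w') =
          (∑ σ, (NN O p s σ)⁻¹ * (x s σ (p w) * x s σ (p w')) *
            (KK O s σ ^ 2 - KK O s σ)) / (O.card * (O.card - 1)) := by
        rw [eq_div_iff hl2.ne', mul_comm]; exact h4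
      rw [e3, e3', e4, Finset.sum_div, Finset.sum_div, Finset.mul_sum, Finset.mul_sum,
        ← Finset.sum_sub_distrib, ← Finset.sum_sub_distrib, ← Finset.sum_add_distrib]
      refine Finset.sum_le_sum fun σ _ => ?_
      have h6 : (KK O s σ ^ 2 - KK O s σ) / (O.card * (O.card - 1)) ≤
          (KK O s σ / O.card) ^ 2 := by
        rw [div_pow, div_le_div_iff₀ hl2 (by positivity)]
        have hk := hKle σ
        have hk0 := hK0 σ
        have : 0 ≤ (O.card : ℝ) * KK O s σ * (O.card - KK O s σ) :=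
          mul_nonneg (mul_nonneg hl.le hk0) (by linarith)
        nlinarith
      have h7 : 0 ≤ (NN O p s σ)⁻¹ * (x s σ (p w) * x s σ (p w')) :=
        mul_nonneg (hN σ) (mul_nonneg (x_nonneg _ _ _) (x_nonneg _ _ _))
      have h8 := mul_le_mul_of_nonneg_left h6 (mul_nonneg (sq_nonneg ρ) h7)
      have h9 : (NN O p s σ)⁻¹ * (x s σ (p w) * x s σ (p w')) * (1 - ρ * KK O s σ / O.card) ^ 2
          = (NN O p s σ)⁻¹ * (x s σ (p w) * x s σ (p w'))
          - 2 * ρ * ((NN O p s σ)⁻¹ * (x s σ (p w) * x s σ (p w')) * KK O s σ / O.card)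
          + ρ ^ 2 * ((NN O p s σ)⁻¹ * (x s σ (p w) * x s σ (p w'))) *
            (KK O s σ / O.card) ^ 2 := by ring
      rw [h9]
      have h10 : ρ ^ 2 * ((NN O p s σ)⁻¹ * (x s σ (p w) * x s σ (p w')) *
          (KK O s σ ^ 2 - KK O s σ) / (O.card * (O.card - 1))) =
          ρ ^ 2 * ((NN O p s σ)⁻¹ * (x s σ (p w) * x s σ (p w'))) *
            ((KK O s σ ^ 2 - KK O s σ) / (O.card * (O.card - 1))) := by ring
      rw [h10]
      linarith
  -- summing up
  have hsum : ∑ σ, (NN O p s σ - ρ * EE O p s σ) ^ 2 / NN O p s σ =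
      ∑ w ∈ O, ∑ w' ∈ O, ∑ σ, (NN O p s σ)⁻¹ *
      (x s σ (p w) * (1 - ρ * x s σ w) * (x s σ (p w') * (1 - ρ * x s σ w'))) := by
    have h1 : ∀ σ : Equiv.Perm (Fin n), (NN O p s σ - ρ * EE O p s σ) ^ 2 / NN O p s σ =
        ∑ w ∈ O, ∑ w' ∈ O, (NN O p s σ)⁻¹ *
        (x s σ (p w) * (1 - ρ * x s σ w) * (x s σ (p w') * (1 - ρ * x s σ w'))) := by
      intro σ
      have h2 : NN O p s σ - ρ * EE O p s σ = ∑ w ∈ O, x s σ (p w) * (1 - ρ * x s σ w) := by
        unfold NN EE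
        rw [Finset.mul_sum, ← Finset.sum_sub_distrib]
        exact Finset.sum_congr rfl fun w _ => by ring
      rw [h2, sq, Finset.sum_mul_sum, div_eq_inv_mul, Finset.mul_sum]
      exact Finset.sum_congr rfl fun w _ => by rw [Finset.mul_sum]
    rw [Finset.sum_congr rfl fun σ _ => h1 σ, Finset.sum_comm]
    exact Finset.sum_congr rfl fun w _ => Finset.sum_comm
  rw [hsum]
  refine (Finset.sum_le_sum fun w hw => Finset.sum_le_sum fun w' hw' => hT w hw w' hw').trans ?_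
  have hsplit : ∑ w ∈ O, ∑ w' ∈ O,
      (∑ σ, (NN O p s σ)⁻¹ * (x s σ (p w) * x s σ (p w')) * (1 - ρ * KK O s σ / O.card) ^ 2 +
      if w = w' then ∑ σ, (NN O p s σ)⁻¹ * x s σ (p w) *
        (1 + (ρ ^ 2 - 2 * ρ) * KK O s σ / O.card) else 0) =
      ∑ σ, ((NN O p s σ)⁻¹ * (NN O p s σ * NN O p s σ) * (1 - ρ * KK O s σ / O.card) ^ 2 +
        (NN O p s σ)⁻¹ * NN O p s σ * (1 + (ρ ^ 2 - 2 * ρ) * KK O s σ / O.card)) := by
    have h1 : ∀ w ∈ O, ∑ w' ∈ O,
      (∑ σ, (NN O p s σ)⁻¹ * (x s σ (p w) * x s σ (p w')) * (1 - ρ * KK O s σ / O.card) ^ 2 +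
      if w = w' then ∑ σ, (NN O p s σ)⁻¹ * x s σ (p w) *
        (1 + (ρ ^ 2 - 2 * ρ) * KK O s σ / O.card) else 0) =
        ∑ σ, ((NN O p s σ)⁻¹ * (x s σ (p w) * NN O p s σ) * (1 - ρ * KK O s σ / O.card) ^ 2 +
        (NN O p s σ)⁻¹ * x s σ (p w) * (1 + (ρ ^ 2 - 2 * ρ) * KK O s σ / O.card)) := by
      intro w hw
      rw [Finset.sum_add_distrib, Finset.sum_ite_eq, if_pos hw, Finset.sum_comm,
        ← Finset.sum_add_distrib]
      refine Finset.sum_congr rfl fun σ _ => ?_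
      congr 1
      rw [← Finset.sum_mul, ← Finset.mul_sum, ← Finset.mul_sum]
      rfl
    rw [Finset.sum_congr rfl h1, Finset.sum_comm]
    refine Finset.sum_congr rfl fun σ _ => ?_
    rw [Finset.sum_add_distrib, ← Finset.sum_mul, ← Finset.mul_sum, ← Finset.sum_mul,
      ← Finset.sum_mul, ← Finset.mul_sum]
    rfl
  rw [hsplit]
  refine Finset.sum_le_sum fun σ _ => ?_
  have hN := NN_nonneg O p s σ
  have hNle := NN_le O p s σ
  have ha : (NN O p s σ)⁻¹ * (NN O p s σ * NN O p s σ) ≤ O.card := by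
    rcases hN.eq_or_lt with h | h
    · rw [← h]; simp
    · rw [inv_mul_cancel_left₀ h.ne']; exact hNle
  have hb : (NN O p s σ)⁻¹ * NN O p s σ ≤ 1 := by
    rcases hN.eq_or_lt with h | h
    · rw [← h]; simp
    · rw [inv_mul_cancel₀ h.ne']
  have hc : 0 ≤ 1 + (ρ ^ 2 - 2 * ρ) * KK O s σ / O.card := by
    have : 0 ≤ (ρ ^ 2 - 2 * ρ) * KK O s σ / O.card :=
      div_nonneg (mul_nonneg (by nlinarith) (hK0 σ)) hl.le
    linarith
  have := mul_le_mul_of_nonneg_right ha (sq_nonneg (1 - ρ * KK O s σ / O.card))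
  have := mul_le_mul_of_nonneg_right hb hc
  linarith

end key


/-! ### Moments -/

theorem meas_univ : Meas 0 (Finset.univ : Finset (Equiv.Perm (Fin n))) :=
  fun _ _ _ _ => Finset.mem_univ _

theorem x_zero (σ : Equiv.Perm (Fin n)) (v : Fin n) : x 0 σ v = 1 := by
  unfold x; rw [if_pos (Nat.zero_le _)]

/-- The number of orderings. -/
noncomputable def FF (n : ℕ) : ℝ := (Fintype.card (Equiv.Perm (Fin n)) : ℝ)

theorem FF_pos (n : ℕ) : 0 < FF n := by
  unfold FF; exact_mod_cast Fintype.card_pos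

theorem sum_const_FF (c : ℝ) : ∑ _σ : Equiv.Perm (Fin n), c = FF n * c := by
  rw [Finset.sum_const, nsmul_eq_mul, Finset.card_univ]; rfl

theorem moment_one (s : ℕ) (v : Fin n) :
    (n : ℝ) * ∑ σ, x s σ v = ((n - s : ℕ) : ℝ) * FF n := by
  have h := sum_x_one 0 s 0 Finset.univ meas_univ (Nat.zero_le _) le_rfl v
  simp only [x_zero, Nat.sub_zero] at h
  rw [h, sum_const_FF, mul_one]

theorem cast_mul_pred (m : ℕ) : ((m * (m - 1) : ℕ) : ℝ) = (m : ℝ) * ((m : ℝ) - 1) := by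
  rcases Nat.eq_zero_or_pos m with h | h
  · subst h; simp
  · rw [Nat.cast_mul, Nat.cast_sub h, Nat.cast_one]

theorem moment_two (s : ℕ) (u v : Fin n) (huv : u ≠ v) :
    (n : ℝ) * ((n : ℝ) - 1) * ∑ σ, x s σ u * x s σ v =
      ((n - s : ℕ) : ℝ) * (((n - s : ℕ) : ℝ) - 1) * FF n := by
  have h := sum_x_two 0 s 0 Finset.univ meas_univ (Nat.zero_le _) le_rfl u v huv
  simp only [x_zero, Nat.sub_zero] at h
  rw [cast_mul_pred, cast_mul_pred] at h
  rw [h, sum_const_FF]; ring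

theorem sum_KK (O : Finset (Fin n)) (s : ℕ) :
    (n : ℝ) * ∑ σ, KK O s σ = (O.card : ℝ) * ((n - s : ℕ) : ℝ) * FF n := by
  unfold KK
  rw [Finset.sum_comm, Finset.mul_sum, Finset.sum_congr rfl fun w _ => moment_one s w,
    Finset.sum_const, nsmul_eq_mul]
  ring

theorem KK_sq (O : Finset (Fin n)) (s : ℕ) (σ : Equiv.Perm (Fin n)) :
    KK O s σ ^ 2 = KK O s σ + ∑ u ∈ O, ∑ u' ∈ O.erase u, x s σ u * x s σ u' := by
  have h2 : ∀ u ∈ O, ∑ u' ∈ O.erase u, x s σ u * x s σ u' =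
      x s σ u * KK O s σ - x s σ u := by
    intro u hu
    have h3 := Finset.add_sum_erase O (fun u' => x s σ u * x s σ u') hu
    rw [x_mul_self] at h3
    unfold KK
    rw [Finset.mul_sum]
    linarith
  rw [Finset.sum_congr rfl h2, Finset.sum_sub_distrib, ← Finset.sum_mul]
  unfold KK
  ring

theorem sum_KK_sq (O : Finset (Fin n)) (s : ℕ) :
    (n : ℝ) * ((n : ℝ) - 1) * ∑ σ, KK O s σ ^ 2 =
      ((n : ℝ) - 1) * ((O.card : ℝ) * ((n - s : ℕ) : ℝ) * FF n) +
      (O.card : ℝ) * ((O.card : ℝ) - 1) * (((n - s : ℕ) : ℝ) * (((n - s : ℕ) : ℝ) - 1) * FF n) := by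
  simp_rw [KK_sq]
  rw [Finset.sum_add_distrib, mul_add]
  congr 1
  · rw [← sum_KK]; ring
  · rw [Finset.sum_comm, Finset.mul_sum]
    have h : ∀ u ∈ O, (n : ℝ) * ((n : ℝ) - 1) *
        ∑ σ, ∑ u' ∈ O.erase u, x s σ u * x s σ u' =
        ((O.card : ℝ) - 1) * (((n - s : ℕ) : ℝ) * (((n - s : ℕ) : ℝ) - 1) * FF n) := by
      intro u hu
      rw [Finset.sum_comm, Finset.mul_sum,
        Finset.sum_congr rfl fun u' hu' => moment_two s u u' (Finset.ne_of_mem_erase hu').symm,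
        Finset.sum_const, Finset.card_erase_of_mem hu, nsmul_eq_mul,
        Nat.cast_sub (Finset.card_pos.2 ⟨u, hu⟩), Nat.cast_one]
    rw [Finset.sum_congr rfl h, Finset.sum_const, nsmul_eq_mul]
    ring

theorem second_moment (O : Finset (Fin n)) (hO : O.Nonempty) (s : ℕ) (a ρ q : ℝ)
    (ha : a = ((n - s : ℕ) : ℝ)) (ha1 : 1 < a) (han : a ≤ n) (hρ : ρ = ((n : ℝ) - 1) / (a - 1))
    (hq : q = ρ * a / n) :
    ∑ σ : Equiv.Perm (Fin n), ((O.card : ℝ) * (1 - ρ * KK O s σ / O.card) ^ 2 +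
        (1 + (ρ ^ 2 - 2 * ρ) * KK O s σ / O.card)) ≤ FF n * (1 + (2 * ρ - 3) * q) := by
  have hl : (0 : ℝ) < O.card := by exact_mod_cast hO.card_pos
  have hn0 : (0 : ℝ) < n := by linarith
  have hn1 : (0 : ℝ) < (n : ℝ) - 1 := by linarith
  have ha0 : 0 < a - 1 := by linarith
  have hF := FF_pos n
  have h1 := sum_KK O s
  have h2 := sum_KK_sq O s
  rw [← ha] at h1 h2
  have h1' : ∑ σ, KK O s σ = O.card * a * FF n / n := by
    rw [eq_div_iff hn0.ne', mul_comm]; exact h1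
  have h2' : ∑ σ, KK O s σ ^ 2 = O.card * a * FF n / n +
      O.card * (O.card - 1) * (a * (a - 1) * FF n) / (n * (n - 1)) := by
    have h3 : (n : ℝ) * ((n : ℝ) - 1) ≠ 0 := (mul_pos hn0 hn1).ne'
    apply mul_left_cancel₀ h3
    rw [h2]
    field_simp
  have h4 : ∀ σ : Equiv.Perm (Fin n), ((O.card : ℝ) * (1 - ρ * KK O s σ / O.card) ^ 2 +
        (1 + (ρ ^ 2 - 2 * ρ) * KK O s σ / O.card)) = (O.card + 1 : ℝ) +
        ((ρ ^ 2 - 2 * ρ) / O.card - 2 * ρ) * KK O s σ + ρ ^ 2 / O.card * KK O s σ ^ 2 := by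
    intro σ; field_simp; ring
  rw [Finset.sum_congr rfl fun σ _ => h4 σ, Finset.sum_add_distrib, Finset.sum_add_distrib,
    ← Finset.mul_sum, ← Finset.mul_sum, sum_const_FF, h1', h2']
  have h5 : FF n * (O.card + 1 : ℝ) + ((ρ ^ 2 - 2 * ρ) / O.card - 2 * ρ) *
      (O.card * a * FF n / n) + ρ ^ 2 / O.card * (O.card * a * FF n / n +
      O.card * (O.card - 1) * (a * (a - 1) * FF n) / (n * (n - 1))) =
      FF n * (1 + (2 * ρ - 3) * q) + FF n * O.card * (1 - q) := by
    rw [hq, hρ]; field_simp; ring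
  rw [h5]
  have h6 : 1 ≤ q := by
    rw [hq, hρ, div_mul_eq_mul_div, div_div, le_div_iff₀ (mul_pos ha0 hn0)]
    nlinarith
  have : FF n * O.card * (1 - q) ≤ 0 :=
    mul_nonpos_of_nonneg_of_nonpos (mul_nonneg hF.le hl.le) (by linarith)
  linarith

/-! ### The bound for star forests -/

theorem sum_NN_univ (O : Finset (Fin n)) (p : Fin n → Fin n) (s : ℕ) :
    (n : ℝ) * ∑ σ, NN O p s σ = (O.card : ℝ) * ((n - s : ℕ) : ℝ) * FF n := by
  unfold NN
  rw [Finset.sum_comm, Finset.mul_sum, Finset.sum_congr rfl fun w _ => moment_one s (p w),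
    Finset.sum_const, nsmul_eq_mul]
  ring

theorem sum_EE_univ (O : Finset (Fin n)) (p : Fin n → Fin n) (hp : ∀ w ∈ O, p w ∉ O) (s : ℕ) :
    (n : ℝ) * ((n : ℝ) - 1) * ∑ σ, EE O p s σ =
      (O.card : ℝ) * (((n - s : ℕ) : ℝ) * (((n - s : ℕ) : ℝ) - 1)) * FF n := by
  unfold EE
  rw [Finset.sum_comm, Finset.mul_sum, Finset.sum_congr rfl fun w hw => moment_two s w (p w)
    (fun h => hp w hw (h ▸ hw)), Finset.sum_const, nsmul_eq_mul]
  ring

theorem star_bound (O : Finset (Fin n)) (p : Fin n → Fin n) (hp : ∀ w ∈ O, p w ∉ O)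
    (τ : Equiv.Perm (Fin n) → ℕ) (hτn : ∀ σ, τ σ ≤ n)
    (hτ : ∀ σ π, (∀ i : Fin n, i.val < τ σ → σ i = π i) → τ π = τ σ)
    (s : ℕ) (a ρ q K : ℝ) (ha : a = ((n - s : ℕ) : ℝ)) (ha1 : 1 < a)
    (han : a ≤ n / 8) (hρ : ρ = ((n : ℝ) - 1) / (a - 1)) (hq : q = ρ * a / n)
    (hK : 9 / 16 * (n : ℝ) ^ 2 ≤ K * (a * (n - 1))) (hK0 : 0 ≤ K) :
    ∑ σ, YY O p (τ σ) σ ≤
      FF n * ((n : ℝ) * O.card / (4 * ((n : ℝ) - 1)) + K * (1 + (2 * ρ - 3) * q)) := by
  have hn0 : (0 : ℝ) < n := by linarith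
  have hn2 : (2 : ℝ) ≤ n := by linarith
  have hn1 : (0 : ℝ) < (n : ℝ) - 1 := by linarith
  have ha0 : 0 < a - 1 := by linarith
  have hF := FF_pos n
  have hρ2 : 2 ≤ ρ := by
    rw [hρ, le_div_iff₀ ha0]; linarith
  have hq0 : 0 ≤ q := by
    rw [hq]; positivity
  rcases O.eq_empty_or_nonempty with rfl | hO
  · have : ∀ σ : Equiv.Perm (Fin n), YY ∅ p (τ σ) σ = 0 := fun σ => by simp [YY]
    simp only [this, Finset.sum_const_zero, Finset.card_empty, Nat.cast_zero, mul_zero, zero_div,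
      zero_add]
    exact mul_nonneg hF.le (mul_nonneg hK0 (by nlinarith))
  -- the dominating function
  obtain ⟨Ψ, hΨ⟩ : ∃ Ψ : Equiv.Perm (Fin n) → ℝ, ∀ σ, Ψ σ =
      n / 2 * ((NN O p s σ - ρ * EE O p s σ) / a) +
      (n : ℝ) ^ 2 / 4 * (EE O p s σ / (a * (a - 1))) +
      K * ((NN O p s σ - ρ * EE O p s σ) ^ 2 / NN O p s σ) := ⟨_, fun _ => rfl⟩
  have hEz : ∀ σ : Equiv.Perm (Fin n), NN O p s σ = 0 → EE O p s σ = 0 := fun σ h =>
    le_antisymm (h ▸ EE_le O p s σ) (EE_nonneg O p s σ)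
  have hmain : ∀ t ∈ Finset.range (n + 1), ∑ σ ∈ Finset.univ.filter (fun σ => τ σ = t),
      YY O p (τ σ) σ ≤ ∑ σ ∈ Finset.univ.filter (fun σ => τ σ = t), Ψ σ := by
    intro t ht
    have htn : t ≤ n := by
      have := Finset.mem_range.1 ht; omega
    have hYt : ∑ σ ∈ Finset.univ.filter (fun σ => τ σ = t), YY O p (τ σ) σ =
        ∑ σ ∈ Finset.univ.filter (fun σ => τ σ = t), YY O p t σ :=
      Finset.sum_congr rfl fun σ hσ => by rw [(Finset.mem_filter.1 hσ).2]
    rw [hYt]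
    by_cases hts : t ≤ s
    · have hmeas : Meas t (Finset.univ.filter (fun σ : Equiv.Perm (Fin n) => τ σ = t)) := by
        intro σ hσ π hπ
        simp only [Finset.mem_filter, Finset.mem_univ, true_and] at hσ ⊢
        rw [← hσ]
        refine hτ σ (σ * π) fun i hi => ?_
        rw [Equiv.Perm.mul_apply, hπ i (by rw [← hσ]; exact hi)]
      have e1 := sum_NN O p t t s _ hmeas le_rfl hts
      have e2 := sum_EE O p hp t t s _ hmeas le_rfl hts
      rw [cast_mul_pred, cast_mul_pred] at e2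
      rw [← ha] at e1 e2
      obtain ⟨m, hm⟩ : ∃ m : ℝ, m = ((n - t : ℕ) : ℝ) := ⟨_, rfl⟩
      rw [← hm] at e1 e2
      have hm0 : 0 ≤ m := by rw [hm]; positivity
      have hmn : m ≤ n := by rw [hm]; exact_mod_cast Nat.sub_le n t
      have e1' : ∑ σ ∈ Finset.univ.filter (fun σ => τ σ = t), NN O p t σ =
          m / a * ∑ σ ∈ Finset.univ.filter (fun σ => τ σ = t), NN O p s σ := by
        rw [div_mul_eq_mul_div, eq_div_iff (by linarith), mul_comm]; exact e1
      have e2' : ∑ σ ∈ Finset.univ.filter (fun σ => τ σ = t), EE O p t σ =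
          m * (m - 1) / (a * (a - 1)) *
            ∑ σ ∈ Finset.univ.filter (fun σ => τ σ = t), EE O p s σ := by
        rw [div_mul_eq_mul_div, eq_div_iff (mul_pos (by linarith) ha0).ne', mul_comm]; exact e2
      simp_rw [YY_eq]
      rw [Finset.sum_sub_distrib, e1', e2', Finset.mul_sum, Finset.mul_sum,
        ← Finset.sum_sub_distrib]
      refine Finset.sum_le_sum fun σ _ => ?_
      rw [hΨ]
      rcases (NN_nonneg O p s σ).eq_or_lt with h0 | h0
      · rw [hEz σ h0.symm, ← h0]; simp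
      · exact ineq_early n a K _ _ m ρ ha1 hn2 hρ hK h0 hm0 hmn
    · refine Finset.sum_le_sum fun σ _ => ?_
      refine (YY_le O p t σ).trans ((NN_anti O p (by omega : s ≤ t) σ).trans ?_)
      rw [hΨ]
      rcases (NN_nonneg O p s σ).eq_or_lt with h0 | h0
      · rw [hEz σ h0.symm, ← h0]; simp
      · exact ineq_late n a K _ _ ρ ha1 hn2 han hρ hK h0
  have hsum : ∀ f : Equiv.Perm (Fin n) → ℝ, ∑ σ, f σ =
      ∑ t ∈ Finset.range (n + 1), ∑ σ ∈ Finset.univ.filter (fun σ => τ σ = t), f σ := by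
    intro f
    rw [Finset.sum_fiberwise_of_maps_to]
    intro σ _
    exact Finset.mem_range.2 (Nat.lt_succ_of_le (hτn σ))
  rw [hsum (fun σ => YY O p (τ σ) σ)]
  refine (Finset.sum_le_sum hmain).trans ?_
  rw [← hsum]
  -- evaluate the sum of `Ψ`
  have hN : ∑ σ, NN O p s σ = O.card * a * FF n / n := by
    have := sum_NN_univ O p s
    rw [← ha] at this
    rw [eq_div_iff hn0.ne', mul_comm]; exact this
  have hE : ∑ σ, EE O p s σ = O.card * (a * (a - 1)) * FF n / (n * (n - 1)) := by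
    have := sum_EE_univ O p hp s
    rw [← ha] at this
    rw [eq_div_iff (mul_pos hn0 hn1).ne', mul_comm]; exact this
  have hkey := (key_bound hp s ρ hρ2 hO).trans
    (second_moment O hO s a ρ q ha ha1 (by linarith) hρ hq)
  simp_rw [hΨ]
  rw [Finset.sum_add_distrib, Finset.sum_add_distrib, ← Finset.mul_sum, ← Finset.mul_sum,
    ← Finset.mul_sum, ← Finset.sum_div, ← Finset.sum_div, Finset.sum_sub_distrib,
    ← Finset.mul_sum, hN, hE]
  have h1 : (n : ℝ) / 2 * ((O.card * a * FF n / n -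
      ρ * (O.card * (a * (a - 1)) * FF n / (n * (n - 1)))) / a) +
      (n : ℝ) ^ 2 / 4 * (O.card * (a * (a - 1)) * FF n / (n * (n - 1)) / (a * (a - 1))) =
      FF n * ((n : ℝ) * O.card / (4 * ((n : ℝ) - 1))) := by
    rw [hρ]; field_simp; ring
  rw [h1, mul_add]
  have := mul_le_mul_of_nonneg_left hkey hK0
  linarith


/-! ### Graphs -/

theorem exists_par (G : SimpleGraph (Fin n)) (hG : G.Connected) (r v : Fin n) (hv : v ≠ r) :
    ∃ w, G.Adj v w ∧ G.dist r w + 1 = G.dist r v := by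
  obtain ⟨p, hp⟩ := hG.exists_walk_length_eq_dist v r
  cases p with
  | nil => exact absurd rfl hv
  | @cons _ w _ h q =>
    refine ⟨w, h, ?_⟩
    have h1 : G.dist w r ≤ q.length := SimpleGraph.dist_le q
    have h2 : G.dist v r ≤ G.dist v w + G.dist w r := hG.dist_triangle
    have h3 : G.dist v w = 1 := SimpleGraph.dist_eq_one_iff_adj.2 h
    rw [SimpleGraph.Walk.length_cons] at hp
    rw [SimpleGraph.dist_comm (u := r) (v := w), SimpleGraph.dist_comm (u := r) (v := v)]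
    omega

theorem mem_active (σ : Equiv.Perm (Fin n)) (t : ℕ) (v : Fin n) :
    v ∈ active σ t ↔ (σ⁻¹ v).val < t := by
  constructor
  · rintro ⟨i, hi, rfl⟩
    have : σ⁻¹ (σ i) = i := σ.symm_apply_apply i
    rwa [this]
  · intro h
    exact ⟨σ⁻¹ v, h, σ.apply_symm_apply v⟩

theorem x_of_mem (σ : Equiv.Perm (Fin n)) (t : ℕ) (v : Fin n) (h : v ∈ active σ t) :
    x t σ v = 0 := by
  rw [mem_active] at h
  unfold x
  rw [if_neg (by omega)]

theorem x_of_not_mem (σ : Equiv.Perm (Fin n)) (t : ℕ) (v : Fin n) (h : v ∉ active σ t) :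
    x t σ v = 1 := by
  rw [mem_active] at h
  unfold x
  rw [if_pos (by omega)]

open Classical in
theorem CC_le (G : SimpleGraph (Fin n)) (r : Fin n) (par : Fin n → Fin n)
    (hpar : ∀ v, v ≠ r → G.Adj v (par v) ∧ G.dist r (par v) + 1 = G.dist r v)
    (σ : Equiv.Perm (Fin n)) (t : ℕ) :
    (CC G σ t : ℝ) ≤ 1 + ∑ w ∈ Finset.univ.erase r, (1 - x t σ w) * x t σ (par w) := by
  set S := active σ t with hS
  let B : Finset (Fin n) := Finset.univ.filter fun v => v ∈ S ∧ (v = r ∨ par v ∉ S)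
  have hsurj : Function.Surjective (fun v : B => (G.induce S).connectedComponentMk
      ⟨v.1, (Finset.mem_filter.1 v.2).2.1⟩) := by
    intro c
    obtain ⟨v, hv, hmin⟩ := Set.exists_min_image c.supp (fun v => G.dist r v.1) (Set.toFinite _)
      c.nonempty_supp
    rw [SimpleGraph.ConnectedComponent.mem_supp_iff] at hv
    have hvB : v.1 ∈ B := by
      refine Finset.mem_filter.2 ⟨Finset.mem_univ _, v.2, ?_⟩
      by_contra hcon
      push Not at hcon
      obtain ⟨hadj, hdist⟩ := hpar v.1 hcon.1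
      have hadj' : (G.induce S).Adj v ⟨par v.1, hcon.2⟩ := hadj
      have hmem : (⟨par v.1, hcon.2⟩ : S) ∈ c.supp := by
        rw [SimpleGraph.ConnectedComponent.mem_supp_iff, ← hv]
        exact SimpleGraph.ConnectedComponent.sound hadj'.symm.reachable
      have := hmin _ hmem
      simp only at this
      omega
    exact ⟨⟨v.1, hvB⟩, hv⟩
  have h1 : CC G σ t ≤ B.card := by
    have := Nat.card_le_card_of_surjective _ hsurj
    have hB : Nat.card B = B.card := by
      rw [Nat.card_eq_fintype_card, Fintype.card_coe]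
    rw [hB] at this
    exact this
  have h2 : B ⊆ insert r ((Finset.univ.erase r).filter fun w => w ∈ S ∧ par w ∉ S) := by
    intro v hv
    obtain ⟨_, hvS, h⟩ := Finset.mem_filter.1 hv
    by_cases hvr : v = r
    · exact hvr ▸ Finset.mem_insert_self _ _
    · refine Finset.mem_insert_of_mem (Finset.mem_filter.2 ⟨Finset.mem_erase.2
        ⟨hvr, Finset.mem_univ _⟩, hvS, h.resolve_left hvr⟩)
  have h3 := (Finset.card_le_card h2).trans (Finset.card_insert_le _ _)
  have h4 : (((Finset.univ.erase r).filter fun w => w ∈ S ∧ par w ∉ S).card : ℝ) =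
      ∑ w ∈ Finset.univ.erase r, (1 - x t σ w) * x t σ (par w) := by
    rw [← Finset.sum_boole]
    refine Finset.sum_congr rfl fun w _ => ?_
    by_cases hw : w ∈ S
    · by_cases hw' : par w ∈ S
      · rw [if_neg (fun h => h.2 hw'), x_of_mem σ t (par w) hw']; ring
      · rw [if_pos ⟨hw, hw'⟩, x_of_mem σ t w hw, x_of_not_mem σ t (par w) hw']; ring
    · rw [if_neg (fun h => hw h.1), x_of_not_mem σ t w hw]; ring
  have h5 : CC G σ t ≤ ((Finset.univ.erase r).filter fun w => w ∈ S ∧ par w ∉ S).card + 1 :=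
    h1.trans h3
  have h6 : (CC G σ t : ℝ) ≤
      (((Finset.univ.erase r).filter fun w => w ∈ S ∧ par w ∉ S).card : ℝ) + 1 := by
    exact_mod_cast h5
  rw [h4] at h6
  linarith

theorem CC_le_n (G : SimpleGraph (Fin n)) (σ : Equiv.Perm (Fin n)) (t : ℕ) :
    (CC G σ t : ℝ) ≤ n := by
  have h1 : CC G σ t ≤ Nat.card (active σ t) :=
    Nat.card_le_card_of_surjective (G.induce (active σ t)).connectedComponentMk Quot.mk_surjective
  have h2 : Nat.card (active σ t) ≤ Nat.card (Fin n) :=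
    Nat.card_le_card_of_injective (fun v => v.1) Subtype.val_injective
  rw [Nat.card_eq_fintype_card (α := Fin n), Fintype.card_fin] at h2
  exact_mod_cast h1.trans h2

theorem FF_eq (n : ℕ) : FF n = (n.factorial : ℝ) := by
  unfold FF
  rw [Fintype.card_perm, Fintype.card_fin]

/-- **Main theorem.** For every connected graph `G` on `n` vertices, in particular for every tree,
every stopping algorithm has score at most `n/4 + 200`. -/
theorem result (n : ℕ) (G : SimpleGraph (Fin n)) (hG : G.Connected) (A : Algorithm n) :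
    score G A ≤ (n : ℝ) / 4 + 200 := by
  classical
  have hfac : (0 : ℝ) < (n.factorial : ℝ) := by exact_mod_cast Nat.factorial_pos n
  unfold score
  rw [div_le_iff₀ hfac, ← FF_eq]
  by_cases hn : n < 256
  · have hn' : (n : ℝ) ≤ 255 := by exact_mod_cast Nat.lt_succ_iff.1 hn
    refine (Finset.sum_le_sum fun σ _ => CC_le_n G σ (A.time σ)).trans ?_
    rw [sum_const_FF, mul_comm]
    have := FF_pos n
    nlinarith
  push Not at hn
  obtain ⟨r⟩ := hG.nonempty
  -- parents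
  have hex : ∀ v, ∃ w, v ≠ r → G.Adj v w ∧ G.dist r w + 1 = G.dist r v := by
    intro v
    by_cases hv : v = r
    · exact ⟨r, fun h => absurd hv h⟩
    · obtain ⟨w, hw⟩ := exists_par G hG r v hv
      exact ⟨w, fun _ => hw⟩
  choose par hpar using hex
  set O1 : Finset (Fin n) := (Finset.univ.erase r).filter fun w => Odd (G.dist r w) with hO1
  set O2 : Finset (Fin n) := (Finset.univ.erase r).filter fun w => ¬ Odd (G.dist r w) with hO2
  have hp1 : ∀ w ∈ O1, par w ∉ O1 := by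
    intro w hw hw'
    rw [hO1, Finset.mem_filter] at hw hw'
    have := (hpar w (Finset.ne_of_mem_erase hw.1)).2
    rw [← this, Nat.odd_add_one] at hw
    exact hw.2 hw'.2
  have hp2 : ∀ w ∈ O2, par w ∉ O2 := by
    intro w hw hw'
    rw [hO2, Finset.mem_filter] at hw hw'
    have := (hpar w (Finset.ne_of_mem_erase hw.1)).2
    rw [← this, Nat.odd_add_one, not_not] at hw
    exact hw'.2 hw.2
  have hcard : (O1.card : ℝ) + O2.card = n - 1 := by
    have h1 := Finset.card_filter_add_card_filter_not (s := Finset.univ.erase r)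
      (fun w => Odd (G.dist r w))
    rw [Finset.card_erase_of_mem (Finset.mem_univ _), Finset.card_univ, Fintype.card_fin] at h1
    have h2 : O1.card + O2.card + 1 = n := by
      rw [hO1, hO2]; omega
    have h3 : ((O1.card + O2.card + 1 : ℕ) : ℝ) = n := by rw [h2]
    push_cast at h3
    linarith
  -- parameters
  obtain ⟨s, hs⟩ : ∃ s, s = n - n / 8 := ⟨_, rfl⟩
  obtain ⟨a, ha⟩ : ∃ a : ℝ, a = ((n - s : ℕ) : ℝ) := ⟨_, rfl⟩
  have hsn : n - s = n / 8 := by omega
  have hnR : (256 : ℝ) ≤ n := by exact_mod_cast hn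
  have ha8 : 8 * a ≤ n := by
    rw [ha, hsn]
    exact_mod_cast (by omega : 8 * (n / 8) ≤ n)
  have ha8' : (n : ℝ) ≤ 8 * a + 7 := by
    rw [ha, hsn]
    exact_mod_cast (by omega : n ≤ 8 * (n / 8) + 7)
  obtain ⟨ρ, hρ⟩ : ∃ ρ : ℝ, ρ = ((n : ℝ) - 1) / (a - 1) := ⟨_, rfl⟩
  obtain ⟨q, hq⟩ : ∃ q : ℝ, q = ρ * a / n := ⟨_, rfl⟩
  have ha1 : 1 < a := by linarith
  have hK : 9 / 16 * (n : ℝ) ^ 2 ≤ 5 * (a * (n - 1)) := by nlinarith
  have hρ1 : ρ ≤ 17 / 2 := by
    rw [hρ, div_le_iff₀ (by linarith)]; linarith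
  have hρ0 : 8 ≤ ρ := by
    rw [hρ, le_div_iff₀ (by linarith)]; linarith
  have hq1 : q ≤ 17 / 16 := by
    rw [hq, div_le_iff₀ (by linarith)]; nlinarith
  have hq0 : 0 ≤ q := by
    rw [hq]; apply div_nonneg (mul_nonneg _ _) <;> linarith
  have hC : 5 * (1 + (2 * ρ - 3) * q) ≤ 80 := by nlinarith
  have hb1 := star_bound O1 par hp1 A.time A.le_n A.adapted s a ρ q 5 ha ha1
    (by linarith) hρ hq hK (by norm_num)
  have hb2 := star_bound O2 par hp2 A.time A.le_n A.adapted s a ρ q 5 ha ha1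
    (by linarith) hρ hq hK (by norm_num)
  have hCC : ∀ σ : Equiv.Perm (Fin n), (CC G σ (A.time σ) : ℝ) ≤
      1 + YY O1 par (A.time σ) σ + YY O2 par (A.time σ) σ := by
    intro σ
    refine (CC_le G r par hpar σ (A.time σ)).trans ?_
    unfold YY
    rw [hO1, hO2, add_assoc, Finset.sum_filter_add_sum_filter_not]
  refine (Finset.sum_le_sum fun σ _ => hCC σ).trans ?_
  rw [Finset.sum_add_distrib, Finset.sum_add_distrib, sum_const_FF]
  have hF := FF_pos n
  have hn1 : (0 : ℝ) < (n : ℝ) - 1 := by linarith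
  have h1 : FF n * ((n : ℝ) * O1.card / (4 * ((n : ℝ) - 1)) + 5 * (1 + (2 * ρ - 3) * q)) +
      FF n * ((n : ℝ) * O2.card / (4 * ((n : ℝ) - 1)) + 5 * (1 + (2 * ρ - 3) * q)) =
      FF n * ((n : ℝ) / 4 + 2 * (5 * (1 + (2 * ρ - 3) * q))) := by
    have h2 : (O2.card : ℝ) = n - 1 - O1.card := by linarith
    rw [h2]; field_simp; ring
  have h3 : FF n * ((n : ℝ) / 4 + 2 * (5 * (1 + (2 * ρ - 3) * q))) ≤
      FF n * ((n : ℝ) / 4 + 160) := mul_le_mul_of_nonneg_left (by linarith) hF.le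
  nlinarith

end Pool.Agent.Results.MP_1fe8eb_co.TreeStopping
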